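import Pool.Agent.R151.T1Z

/-!
# `t₁^Z` on `C(Y,Z)` need not be completely regular for completely regular `Z`
-/

namespace Pool.Agent.Results.MP_8267fa_gt.NotCompletelyRegular

open Pool.Agent.R151.T1Z

/-- There are a countable Tychonoff space `Y` and a finite discrete (in particular completely
regular) space `Z` such that the topology `t₁^Z` on `C(Y,Z)` is not completely regular. -/
theorem result : ∃ (Y Z : Type) (_ : TopologicalSpace Y) (_ : TopologicalSpace Z),
    T2Space Y ∧ CompletelyRegularSpace Y ∧ Countable Y ∧ Finite Z ∧ DiscreteTopology Z ∧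
      CompletelyRegularSpace Z ∧ ¬ @CompletelyRegularSpace C(Y, Z) (t1Z Y Z) := by
  have hZ : CompletelyRegularSpace Bool :=
    completelyRegular_of_clopen fun x K hK hx =>
      ⟨Kᶜ, (isClopen_discrete K).compl, hx, disjoint_compl_left⟩
  refine ⟨P, Bool, inferInstance, inferInstance, inferInstance, inferInstance, inferInstance,
    inferInstance, inferInstance, hZ, fun h => not_regular ?_⟩
  let τ : TopologicalSpace C(P, Bool) := t1Z P Bool
  exact @CompletelyRegularSpace.instRegularSpace _ τ h

end Pool.Agent.Results.MP_8267fa_gt.NotCompletelyRegular
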